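import Pool.Agent.Helper90.LM.LBC
import Pool.Agent.Helper37.LM.LSR

/-!
# Third moment (MP_9a3c31_nt)
-/

set_option autoImplicit false

open Filter Topology

namespace Pool.Agent.Helper54.LM3

open Pool.Agent.Helper42.LS Pool.Agent.Helper54.LM

/-- LSR3 : third moment -/
def ST_LSR3 : Prop := ∃ c C : ℝ, 0 < c ∧ 0 < C ∧ ∀ (m : ℕ) (S : Finset (Fin m → ℤ))
  (V : Finset ℕ) (w : ℕ → ℝ) (t : ℕ → Fin m → ℝ) (ρ : ℝ), (∀ v ∈ V, 0 ≤ w v) →
  0 < ∑ v ∈ V, w v → 0 < ρ → ρ * (∑ v ∈ V, w v) ^ 2 ≤ ∑ v ∈ V, w v ^ 2 →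
  C ≤ ρ ^ (3 / 2 : ℝ) * S.card →
  ∃ a ∈ S, ∃ b ∈ S, a ≠ b ∧
    c * (ρ ^ (1 / 2 : ℝ) * ∑ v ∈ V, w v) ≤ ∑ v ∈ V, w v * B2 (pr (a - b) (t v))

/-- weighted positivity of a product of two kernels -/
theorem prodw {ι : Type} (S : Finset ι) (β x y : ι → ℝ) :
    0 ≤ ∑ a ∈ S, ∑ b ∈ S, β a * β b * (B2 (x a - x b) * B2 (y a - y b)) := by
  have h := (LBC_sum S (fun a b => β a * β b * B2 (y a - y b)) x).nonneg (fun n => by
    apply div_nonneg _ (by positivity)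
    have e : ∑ a ∈ S, ∑ b ∈ S, β a * β b * B2 (y a - y b) *
        Real.cos (2 * Real.pi * (n + 1) * (x a - x b)) =
        ∑ a ∈ S, ∑ b ∈ S, (β a * Real.cos (2 * Real.pi * (n + 1) * x a)) *
          (β b * Real.cos (2 * Real.pi * (n + 1) * x b)) * B2 (y a - y b) +
        ∑ a ∈ S, ∑ b ∈ S, (β a * Real.sin (2 * Real.pi * (n + 1) * x a)) *
          (β b * Real.sin (2 * Real.pi * (n + 1) * x b)) * B2 (y a - y b) := by
      rw [← Finset.sum_add_distrib]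
      refine Finset.sum_congr rfl fun a _ => ?_
      rw [← Finset.sum_add_distrib]
      refine Finset.sum_congr rfl fun b _ => ?_
      rw [mul_sub (2 * Real.pi * ((n : ℝ) + 1)) (x a), Real.cos_sub]
      ring
    rw [e]
    exact add_nonneg (LBC_pos S _ y) (LBC_pos S _ y))
  have h2 := nonneg_of_mul_nonneg_right h (by positivity)
  refine h2.trans (le_of_eq ?_)
  refine Finset.sum_congr rfl fun a _ => Finset.sum_congr rfl fun b _ => ?_
  ring

/-- positivity of a product of three kernels -/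
theorem prod3 {ι : Type} (S : Finset ι) (x y z : ι → ℝ) :
    0 ≤ ∑ a ∈ S, ∑ b ∈ S, B2 (x a - x b) * B2 (y a - y b) * B2 (z a - z b) := by
  have h := (LBC_sum S (fun a b => B2 (y a - y b) * B2 (z a - z b)) x).nonneg (fun n => by
    apply div_nonneg _ (by positivity)
    have e : ∑ a ∈ S, ∑ b ∈ S, B2 (y a - y b) * B2 (z a - z b) *
        Real.cos (2 * Real.pi * (n + 1) * (x a - x b)) =
        ∑ a ∈ S, ∑ b ∈ S, Real.cos (2 * Real.pi * (n + 1) * x a) *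
          Real.cos (2 * Real.pi * (n + 1) * x b) * (B2 (y a - y b) * B2 (z a - z b)) +
        ∑ a ∈ S, ∑ b ∈ S, Real.sin (2 * Real.pi * (n + 1) * x a) *
          Real.sin (2 * Real.pi * (n + 1) * x b) * (B2 (y a - y b) * B2 (z a - z b)) := by
      rw [← Finset.sum_add_distrib]
      refine Finset.sum_congr rfl fun a _ => ?_
      rw [← Finset.sum_add_distrib]
      refine Finset.sum_congr rfl fun b _ => ?_
      rw [mul_sub (2 * Real.pi * ((n : ℝ) + 1)) (x a), Real.cos_sub]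
      ring
    rw [e]
    exact add_nonneg (prodw S _ y z) (prodw S _ y z))
  have h2 := nonneg_of_mul_nonneg_right h (by positivity)
  refine h2.trans (le_of_eq ?_)
  refine Finset.sum_congr rfl fun a _ => Finset.sum_congr rfl fun b _ => ?_
  ring

theorem expand1 {α : Type} (P : Finset α) (V : Finset ℕ) (w : ℕ → ℝ) (g : ℕ → α → ℝ) :
    ∑ p ∈ P, (∑ v ∈ V, w v * g v p) = ∑ v ∈ V, w v * ∑ p ∈ P, g v p := by
  rw [Finset.sum_comm]
  refine Finset.sum_congr rfl fun v _ => ?_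
  rw [Finset.mul_sum]

theorem expand2 {α : Type} (P : Finset α) (V : Finset ℕ) (w : ℕ → ℝ) (g : ℕ → α → ℝ) :
    ∑ p ∈ P, (∑ v ∈ V, w v * g v p) ^ 2 =
      ∑ v ∈ V, ∑ u ∈ V, w v * w u * ∑ p ∈ P, g v p * g u p := by
  have h : ∀ p ∈ P, (∑ v ∈ V, w v * g v p) ^ 2 =
      ∑ v ∈ V, ∑ u ∈ V, w v * w u * (g v p * g u p) := by
    intro p _
    rw [sq, Finset.sum_mul_sum]
    refine Finset.sum_congr rfl fun v _ => Finset.sum_congr rfl fun u _ => ?_
    ring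
  rw [Finset.sum_congr rfl h, Finset.sum_comm]
  refine Finset.sum_congr rfl fun v _ => ?_
  rw [Finset.sum_comm]
  refine Finset.sum_congr rfl fun u _ => ?_
  rw [Finset.mul_sum]

theorem expand3 {α : Type} (P : Finset α) (V : Finset ℕ) (w : ℕ → ℝ) (g : ℕ → α → ℝ) :
    ∑ p ∈ P, (∑ v ∈ V, w v * g v p) ^ 3 =
      ∑ v ∈ V, ∑ u ∈ V, ∑ r ∈ V, w v * w u * w r * ∑ p ∈ P, g v p * g u p * g r p := by
  have h : ∀ p ∈ P, (∑ v ∈ V, w v * g v p) ^ 3 =
      ∑ v ∈ V, ∑ u ∈ V, ∑ r ∈ V, w v * w u * w r * (g v p * g u p * g r p) := by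
    intro p _
    rw [pow_three, Finset.sum_mul_sum, Finset.sum_mul]
    refine Finset.sum_congr rfl fun v _ => ?_
    rw [Finset.mul_sum]
    refine Finset.sum_congr rfl fun u _ => ?_
    rw [Finset.mul_sum]
    refine Finset.sum_congr rfl fun r _ => ?_
    ring
  rw [Finset.sum_congr rfl h, Finset.sum_comm]
  refine Finset.sum_congr rfl fun v _ => ?_
  rw [Finset.sum_comm]
  refine Finset.sum_congr rfl fun u _ => ?_
  rw [Finset.sum_comm]
  refine Finset.sum_congr rfl fun r _ => ?_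
  rw [Finset.mul_sum]

/-- the pointwise inequality -/
theorem psi_le {l x : ℝ} (hl : 0 < l) (hx : x ≤ l) :
    2 * l * x ^ 2 + l ^ 2 * x + x ^ 3 ≤ 4 * l ^ 3 := by
  have h : 4 * l ^ 3 - (2 * l * x ^ 2 + l ^ 2 * x + x ^ 3) =
      (l - x) * ((x + 3 / 2 * l) ^ 2 + 7 / 4 * l ^ 2) := by ring
  have h2 : 0 ≤ (l - x) * ((x + 3 / 2 * l) ^ 2 + 7 / 4 * l ^ 2) :=
    mul_nonneg (by linarith) (by positivity)
  linarith

theorem arith {n W s ρ : ℝ} (hW : 0 < W) (hs : 0 < s) (hs1 : s ≤ 1) (hρ : ρ = s ^ 2)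
    (hn : 0 < n) (hC : 1009 ≤ s ^ 3 * n)
    (h : 2 * (s / 32 * W) * (n ^ 2 * (ρ * W ^ 2) / 180) ≤
      n ^ 2 * (4 * (s / 32 * W) ^ 3) + n * (2 * (s / 32 * W) * (W / 6) ^ 2 +
        (s / 32 * W) ^ 2 * (W / 6) + (W / 6) ^ 3)) : False := by
  subst hρ
  have hW3 : 0 < n * W ^ 3 := by positivity
  have h2 : (n * W ^ 3) * (s ^ 3 * n * (1 / 2880 - 1 / 8192)) ≤
      (n * W ^ 3) * (s / 576 + s ^ 2 / 6144 + 1 / 216) := by
    have e1 : (n * W ^ 3) * (s ^ 3 * n * (1 / 2880 - 1 / 8192)) =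
        2 * (s / 32 * W) * (n ^ 2 * (s ^ 2 * W ^ 2) / 180) - n ^ 2 * (4 * (s / 32 * W) ^ 3) := by
      ring
    have e2 : (n * W ^ 3) * (s / 576 + s ^ 2 / 6144 + 1 / 216) =
        n * (2 * (s / 32 * W) * (W / 6) ^ 2 + (s / 32 * W) ^ 2 * (W / 6) + (W / 6) ^ 3) := by
      ring
    rw [e1, e2]
    linarith
  have h3 := le_of_mul_le_mul_left h2 hW3
  have h4 : s ^ 2 ≤ 1 := by nlinarith
  nlinarith

theorem LSR3 : ST_LSR3 := by
  classical
  refine ⟨1 / 32, 1009, by norm_num, by norm_num, ?_⟩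
  intro m S V w t ρ hw hW hρ hρW hC
  obtain ⟨s, hs⟩ : ∃ s : ℝ, s = ρ ^ (1 / 2 : ℝ) := ⟨_, rfl⟩
  have hs0 : 0 < s := by rw [hs]; exact Real.rpow_pos_of_pos hρ _
  have hs2 : ρ = s ^ 2 := by
    rw [hs, ← Real.rpow_natCast, ← Real.rpow_mul hρ.le]
    norm_num
  have hs3 : ρ ^ (3 / 2 : ℝ) = s ^ 3 := by
    rw [hs, ← Real.rpow_natCast, ← Real.rpow_mul hρ.le]
    norm_num
  rw [hs3] at hC
  rw [← hs]
  obtain ⟨W, hWd⟩ : ∃ W, W = ∑ v ∈ V, w v := ⟨_, rfl⟩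
  rw [← hWd] at hW hρW ⊢
  have hsqle : ∑ v ∈ V, w v ^ 2 ≤ W ^ 2 := by
    have h1 : ∀ v ∈ V, w v ^ 2 ≤ w v * W := by
      intro v hv
      have h2 : w v ≤ W := by
        rw [hWd]
        exact Finset.single_le_sum (f := w) hw hv
      rw [sq]
      exact mul_le_mul_of_nonneg_left h2 (hw v hv)
    refine (Finset.sum_le_sum h1).trans (le_of_eq ?_)
    rw [← Finset.sum_mul, ← hWd]
    ring
  have hs1 : s ≤ 1 := by
    have h1 : ρ * W ^ 2 ≤ 1 * W ^ 2 := by linarith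
    have h2 := le_of_mul_le_mul_right h1 (by positivity)
    rw [hs2] at h2
    nlinarith
  have hn : 0 < (S.card : ℝ) := by
    rcases Nat.eq_zero_or_pos S.card with h | h
    · rw [h] at hC
      norm_num at hC
    · exact_mod_cast h
  by_contra hcon
  push Not at hcon
  obtain ⟨l, hl⟩ : ∃ l, l = s / 32 * W := ⟨_, rfl⟩
  have hl0 : 0 < l := by rw [hl]; positivity
  have hcon' : ∀ a ∈ S, ∀ b ∈ S, a ≠ b → ∑ v ∈ V, w v * B2 (pr (a - b) (t v)) ≤ l := by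
    intro a ha b hb hab
    have := hcon a ha b hb hab
    rw [hl]
    linarith
  obtain ⟨g, hg⟩ : ∃ g : ℕ → (Fin m → ℤ) × (Fin m → ℤ) → ℝ,
      g = fun v p => B2 (pr p.1 (t v) - pr p.2 (t v)) := ⟨_, rfl⟩
  obtain ⟨F, hF⟩ : ∃ F : (Fin m → ℤ) × (Fin m → ℤ) → ℝ,
      F = fun p => ∑ v ∈ V, w v * g v p := ⟨_, rfl⟩
  have hP : ∀ f : (Fin m → ℤ) × (Fin m → ℤ) → ℝ, ∑ p ∈ S ×ˢ S, f p =
      ∑ a ∈ S, ∑ b ∈ S, f (a, b) := fun f => Finset.sum_product _ _ _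
  -- first moment
  have hM1 : 0 ≤ ∑ p ∈ S ×ˢ S, F p := by
    rw [hF, expand1]
    refine Finset.sum_nonneg fun v hv => mul_nonneg (hw v hv) ?_
    rw [hP, hg]
    exact (st_LBC _ S (fun a => pr a (t v)) (fun a => pr a (t v))).1
  -- second moment
  have hM2 : (S.card : ℝ) ^ 2 * (ρ * W ^ 2) / 180 ≤ ∑ p ∈ S ×ˢ S, F p ^ 2 := by
    rw [hF, expand2]
    have h1 : ∀ v ∈ V, w v ^ 2 * ((S.card : ℝ) ^ 2 / 180) ≤
        ∑ u ∈ V, w v * w u * ∑ p ∈ S ×ˢ S, g v p * g u p := by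
      intro v hv
      have h2 : w v * w v * ∑ p ∈ S ×ˢ S, g v p * g v p ≤
          ∑ u ∈ V, w v * w u * ∑ p ∈ S ×ˢ S, g v p * g u p := by
        refine Finset.single_le_sum
          (f := fun u => w v * w u * ∑ p ∈ S ×ˢ S, g v p * g u p) (fun u hu => ?_) hv
        refine mul_nonneg (mul_nonneg (hw v hv) (hw u hu)) ?_
        rw [hP, hg]
        exact (st_LBC _ S (fun a => pr a (t v)) (fun a => pr a (t u))).2.2.1
      refine le_trans ?_ h2
      have h3 : (S.card : ℝ) ^ 2 / 180 ≤ ∑ p ∈ S ×ˢ S, g v p * g v p := by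
        rw [hP, hg]
        refine le_trans (st_LBC _ S (fun a => pr a (t v)) (fun a => pr a (t v))).2.2.2
          (le_of_eq ?_)
        refine Finset.sum_congr rfl fun a _ => Finset.sum_congr rfl fun b _ => ?_
        rw [sq]
      calc w v ^ 2 * ((S.card : ℝ) ^ 2 / 180) = w v * w v * ((S.card : ℝ) ^ 2 / 180) := by ring
        _ ≤ _ := mul_le_mul_of_nonneg_left h3 (mul_nonneg (hw v hv) (hw v hv))
    refine le_trans ?_ (Finset.sum_le_sum h1)
    rw [← Finset.sum_mul]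
    have h4 : (S.card : ℝ) ^ 2 * (ρ * W ^ 2) / 180 = (ρ * W ^ 2) * ((S.card : ℝ) ^ 2 / 180) := by
      ring
    rw [h4]
    exact mul_le_mul_of_nonneg_right hρW (div_nonneg (sq_nonneg _) (by norm_num))
  -- third moment
  have hM3 : 0 ≤ ∑ p ∈ S ×ˢ S, F p ^ 3 := by
    rw [hF, expand3]
    refine Finset.sum_nonneg fun v hv => Finset.sum_nonneg fun u hu =>
      Finset.sum_nonneg fun r hr => ?_
    refine mul_nonneg (mul_nonneg (mul_nonneg (hw v hv) (hw u hu)) (hw r hr)) ?_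
    rw [hP, hg]
    exact prod3 S (fun a => pr a (t v)) (fun a => pr a (t u)) (fun a => pr a (t r))
  -- upper bound
  have hFd : ∀ a, F (a, a) = W / 6 := by
    intro a
    rw [hF, hg]
    simp only [sub_self, CB_B2_zero]
    rw [← Finset.sum_mul, ← hWd]
    ring
  have hFo : ∀ a ∈ S, ∀ b ∈ S, a ≠ b → F (a, b) ≤ l := by
    intro a ha b hb hab
    have h1 := hcon' a ha b hb hab
    rw [hF, hg]
    simp only [LSR_pr_sub] at h1
    exact h1
  obtain ⟨D, hD⟩ : ∃ D, D = 2 * l * (W / 6) ^ 2 + l ^ 2 * (W / 6) + (W / 6) ^ 3 := ⟨_, rfl⟩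
  have hD0 : 0 ≤ D := by rw [hD]; positivity
  have hU : ∑ p ∈ S ×ˢ S, (2 * l * F p ^ 2 + l ^ 2 * F p + F p ^ 3) ≤
      (S.card : ℝ) ^ 2 * (4 * l ^ 3) + S.card * D := by
    rw [hP]
    have h1 : ∀ a ∈ S, ∀ b ∈ S, 2 * l * F (a, b) ^ 2 + l ^ 2 * F (a, b) + F (a, b) ^ 3 ≤
        4 * l ^ 3 + if a = b then D else 0 := by
      intro a ha b hb
      by_cases hab : a = b
      · rw [if_pos hab, ← hab, hFd, ← hD]
        have : 0 < 4 * l ^ 3 := by positivity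
        linarith
      · rw [if_neg hab, add_zero]
        exact psi_le hl0 (hFo a ha b hb hab)
    refine le_trans (Finset.sum_le_sum fun a ha => Finset.sum_le_sum fun b hb => h1 a ha b hb)
      (le_of_eq ?_)
    simp only [Finset.sum_add_distrib, Finset.sum_const, nsmul_eq_mul]
    have h2 : ∑ a ∈ S, ∑ b ∈ S, (if a = b then D else 0) = S.card * D := by
      have h3 : ∀ a ∈ S, ∑ b ∈ S, (if a = b then D else 0) = D := by
        intro a ha
        rw [Finset.sum_ite_eq, if_pos ha]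
      rw [Finset.sum_congr rfl h3, Finset.sum_const, nsmul_eq_mul]
    rw [h2]
    ring
  have hL : 2 * l * ((S.card : ℝ) ^ 2 * (ρ * W ^ 2) / 180) ≤
      ∑ p ∈ S ×ˢ S, (2 * l * F p ^ 2 + l ^ 2 * F p + F p ^ 3) := by
    rw [Finset.sum_add_distrib, Finset.sum_add_distrib, ← Finset.mul_sum, ← Finset.mul_sum]
    have h1 : 2 * l * ((S.card : ℝ) ^ 2 * (ρ * W ^ 2) / 180) ≤
        2 * l * ∑ p ∈ S ×ˢ S, F p ^ 2 := mul_le_mul_of_nonneg_left hM2 (by positivity)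
    have h2 : 0 ≤ l ^ 2 * ∑ p ∈ S ×ˢ S, F p := mul_nonneg (by positivity) hM1
    linarith
  have hfin := hL.trans hU
  rw [hD, hl] at hfin
  exact arith hW hs0 hs1 hs2 hn hC hfin

end Pool.Agent.Helper54.LM3
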