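import Pool.Agent.Helper66.LS5.CONC
import Pool.Agent.Helper27.LS5.CPTS
import Pool.Agent.Helper54.LM3.CFIN3

/-!
# Concentration with both exponents (MP_9a3c31_nt)
-/

set_option autoImplicit false

open Filter Topology NumberField

namespace Pool.Agent.Helper54.LM3

open Pool.Agent.Helper42.LS Pool.Agent.Helper42.LK Pool.Agent.Helper54.LM Pool.Agent.Helper9.LS5
  Pool.Agent.Helper66.LS5

/-- (CONC3) as `ST_CONC` with the exponent `(m + 6) / 2` -/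
def ST_CONC3 : Prop := ∀ (K : Type) [Field K] [NumberField K] (m : ℕ), 1 ≤ m → ∃ c : ℝ, 0 < c ∧
  ∀ A B : K, dsc A B ≠ 0 → ∀ (X Y : (Fin m → ℤ) → K) (G : Matrix (Fin m) (Fin m) ℝ),
  GLat (0 : K) A B X Y → G.IsSymm → (∀ k, k ≠ 0 → IsCanK (fun n : ℕ => X (n • k)) (qf G k)) →
  ∀ T : Finset (FinitePlace K), c * (1 + HK A B) ^ m *
    rho A B (fun i => X (Pi.single i 1)) T ^ (((m : ℝ) + 6) / 2) ≤ G.det

/-- (CONCM) both exponents -/
def ST_CONCM : Prop := ∀ (K : Type) [Field K] [NumberField K] (m : ℕ), 1 ≤ m → ∃ c : ℝ, 0 < c ∧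
  ∀ A B : K, dsc A B ≠ 0 → ∀ (X Y : (Fin m → ℤ) → K) (G : Matrix (Fin m) (Fin m) ℝ),
  GLat (0 : K) A B X Y → G.IsSymm → (∀ k, k ≠ 0 → IsCanK (fun n : ℕ => X (n • k)) (qf G k)) →
  ∀ T : Finset (FinitePlace K), c * (1 + HK A B) ^ m *
    rho A B (fun i => X (Pi.single i 1)) T ^ (min ((2 * (m : ℝ) + 6) / 3) (((m : ℝ) + 6) / 2)) ≤
      G.det

/-- (CPTM) as `ST_CPTS` with both exponents -/
def ST_CPTM : Prop := ∀ (K : Type) [Field K] [NumberField K] [DecidableEq K] (m : ℕ), 1 ≤ m →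
  ∃ c : ℝ, 0 < c ∧ ∀ A B : K, 4 * A ^ 3 + 27 * B ^ 2 ≠ 0 →
  ∀ P : Fin m → (ECK A B).toAffine.Point, Indep P →
  ∃ G : Matrix (Fin m) (Fin m) ℝ, IsGram P G ∧
    (∀ T : Finset (FinitePlace K),
      c * (1 + HK A B) ^ m * rho A B (fun i => xco (P i)) T ^
        (min ((2 * (m : ℝ) + 6) / 3) (((m : ℝ) + 6) / 2)) ≤ G.det ∧
      ∀ S : Matrix (Fin m) (Fin m) ℤ, (S.map (fun z : ℤ => (z : ℝ))).PosDef →
        c * (1 + HK A B) * rho A B (fun i => xco (P i)) T ^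
          (min ((2 * (m : ℝ) + 6) / 3) (((m : ℝ) + 6) / 2) / m) ≤
          ∑ i, ∑ j, (S i j : ℝ) * G i j) ∧
    c * (1 + HK A B) ^ m *
      (1 + (mK A B : ℝ)) ^ (-(min ((2 * (m : ℝ) + 6) / 3) (((m : ℝ) + 6) / 2))) ≤ G.det ∧
    ∀ S : Matrix (Fin m) (Fin m) ℤ, (S.map (fun z : ℤ => (z : ℝ))).PosDef →
      c * (1 + HK A B) *
        (1 + (mK A B : ℝ)) ^ (-(min ((2 * (m : ℝ) + 6) / 3) (((m : ℝ) + 6) / 2) / m)) ≤
        ∑ i, ∑ j, (S i j : ℝ) * G i j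

theorem CONC3 (hMT : ST_LMT3) (hF : ST_CFIN3) (hS : ST_SGN) (hREG : ST_LREG) (hDF : ST_KDF) :
    ST_CONC3 := by
  classical
  intro K _ _ m hm
  obtain ⟨C₀, hC₀, hM⟩ := hMT K m
  obtain ⟨c₀, hc₀, hR⟩ := hREG K m hm
  obtain ⟨N, hN⟩ : ∃ N : ℝ, N = (Fintype.card (InfinitePlace K) : ℝ) := ⟨_, rfl⟩
  have hN0 : 0 ≤ N := by rw [hN]; exact Nat.cast_nonneg _
  obtain ⟨D, hD⟩ : ∃ D : ℝ, D = 3 + 2 ^ m + 2 * C₀ ^ 2 + 2 * C₀ + N := ⟨_, rfl⟩
  have h2m : (0 : ℝ) < 2 ^ m := by positivity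
  have hC2 : 0 ≤ C₀ ^ 2 := sq_nonneg _
  obtain ⟨c, hc, hfin⟩ := hF m hm D c₀ (by rw [hD]; linarith) hc₀
  refine ⟨c, hc, ?_⟩
  intro A B hAB X Y G hg hsymm hcan T
  obtain ⟨T₀, wf, tf, ti, hT₀, hw0, hwC, hex, hmain⟩ := hM A B hAB X Y (qf G) hg hcan
  obtain ⟨-, hloc, -, hH1, hH2⟩ := hDF K A B hAB
  have hdl : ∀ v : FinitePlace K, 0 ≤ dl (fun z : K => v z) A B := fun v => (hloc v).1
  have hHK0 : 0 ≤ HK A B := HK_nonneg hDF K hAB
  have hreg := hR A B hAB X Y G hg hsymm hcan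
  have hpow : 0 < (1 + HK A B) ^ gam m := Real.rpow_pos_of_pos (by linarith) _
  have hdet : 0 < G.det := lt_of_lt_of_le (mul_pos hc₀ hpow) hreg
  -- the form is positive definite
  have hpos : ∀ k : Fin m → ℤ, 0 ≤ qf G k := by
    intro k
    by_cases hk : k = 0
    · subst hk
      unfold qf
      simp
    · exact can_nonneg' (hcan k hk)
  have hpd : G.PosDef := (LREG_psd hsymm hpos).posDef_iff_det_ne_zero.2 hdet.ne'
  -- the archimedean weights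
  obtain ⟨a, ha⟩ : ∃ a : InfinitePlace K → ℝ, a = fun w : InfinitePlace K =>
    (w.mult : ℝ) * max 0 (Real.log (w (6912 * A ^ 3 / dsc A B))) := ⟨_, rfl⟩
  have ha0 : ∀ w, 0 ≤ a w := fun w => by
    rw [ha]; exact mul_nonneg (Nat.cast_nonneg _) (le_max_left _ _)
  have harw : arw A B = ∑ w, a w := by rw [ha]; rfl
  have hsa : ∑ w : InfinitePlace K, (w.mult : ℝ) *
      max 0 (Real.log (w (6912 * A ^ 3 / dsc A B))) = ∑ w, a w := by rw [ha]
  have hLD : LD A B = ∑ v ∈ T₀, dl (fun z : K => v z) A B := by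
    unfold LD
    apply finsum_eq_sum_of_support_subset
    intro v hv
    by_contra h'
    exact hv (hT₀ v (by simpa using h')).2.2
  have habs : |∑ v ∈ T₀, wf v - LD A B| ≤ C₀ := by
    rw [hLD, ← Finset.sum_sub_distrib]
    exact (Finset.abs_sum_le_sum_abs _ _).trans hwC
  have habs' := abs_le.1 habs
  obtain ⟨w, hw⟩ : ∃ w : FinitePlace K ⊕ InfinitePlace K → ℝ, w = Sum.elim wf a := ⟨_, rfl⟩
  obtain ⟨t, ht⟩ : ∃ t : FinitePlace K ⊕ InfinitePlace K → Fin m → ℝ, t = Sum.elim tf ti :=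
    ⟨_, rfl⟩
  have hsw : ∑ v ∈ T₀.disjSum (Finset.univ : Finset (InfinitePlace K)), w v =
      ∑ v ∈ T₀, wf v + ∑ u, a u := by
    rw [Finset.sum_disjSum, hw]
    simp only [Sum.elim_inl, Sum.elim_inr]
  have hw' : ∀ v, 0 ≤ w v := by
    rw [hw]
    rintro (v | u)
    · exact hw0 v
    · exact ha0 u
  have hsa0 : 0 ≤ ∑ u, a u := Finset.sum_nonneg fun u _ => ha0 u
  rw [hsa] at hH1 hH2
  have hrho : rho A B (fun i => X (Pi.single i 1)) T * (1 + HK A B) ^ 2 =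
      1 + arw A B ^ 2 + prs T (fun v => dl (fun z : K => v z) A B)
        (Sm A B fun i => X (Pi.single i 1)) := by
    unfold rho
    rw [div_mul_cancel₀]
    have : (0 : ℝ) < 1 + HK A B := by linarith
    positivity
  have hprs0 : 0 ≤ prs T (fun v => dl (fun z : K => v z) A B)
      (Sm A B fun i => X (Pi.single i 1)) := prs_nonneg fun v _ => hdl v
  have hrho0 : 0 ≤ rho A B (fun i => X (Pi.single i 1)) T := by
    unfold rho
    have := sq_nonneg (arw A B)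
    exact div_nonneg (by linarith) (sq_nonneg _)
  refine hfin G (FinitePlace K ⊕ InfinitePlace K)
    (T₀.disjSum (Finset.univ : Finset (InfinitePlace K))) w t (HK A B)
    (rho A B (fun i => X (Pi.single i 1)) T) hpd hHK0 hrho0 (fun v _ => hw' v) ?_ ?_ ?_ ?_ hreg
  · rw [hsw, hD]
    nlinarith [habs'.1, habs'.2]
  · rw [hsw, hD]
    nlinarith [habs'.1, habs'.2]
  · rw [hrho]
    have h1 := conc_prs hS (x := fun i => X (Pi.single i 1)) hdl (fun v hv => (hT₀ v hv).2.2)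
      hw0 hwC hex T
    have h2 := prs_disjSum (S := T₀) (U := (Finset.univ : Finset (InfinitePlace K))) (a := wf)
      (b := a) (R := fun v v' => ∀ i, ∃ n : ℤ, t v i = t v' i + n) (fun v _ => hw0 v)
      (fun u _ => ha0 u) (fun u i => ⟨0, by simp⟩)
    have h3 : arw A B ^ 2 ≤ N * ∑ u, a u ^ 2 := by
      rw [harw, hN]
      have := sq_sum_le_card_mul_sum_sq (s := (Finset.univ : Finset (InfinitePlace K))) (f := a)
      rwa [Finset.card_univ] at this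
    have h4 : prs T₀ wf (fun v v' => ∀ i, ∃ n : ℤ, t (Sum.inl v) i = t (Sum.inl v') i + n) =
        prs T₀ wf (fun v v' => ∀ i, ∃ n : ℤ, tf v i = tf v' i + n) := by rw [ht]; rfl
    rw [h4, ← hw] at h2
    obtain ⟨p, hp⟩ : ∃ p : ℝ, p = prs T₀ wf (fun v v' => ∀ i, ∃ n : ℤ, tf v i = tf v' i + n) :=
      ⟨_, rfl⟩
    obtain ⟨q, hq⟩ : ∃ q : ℝ, q = ∑ u, a u ^ 2 := ⟨_, rfl⟩
    obtain ⟨P, hP⟩ : ∃ P : ℝ, P = prs (T₀.disjSum (Finset.univ : Finset (InfinitePlace K))) w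
      (fun v v' => ∀ i, ∃ n : ℤ, t v i = t v' i + n) := ⟨_, rfl⟩
    rw [← hp] at h1 h2
    rw [← hq] at h2 h3
    rw [← hP] at h2 ⊢
    have hp0 : 0 ≤ p := by rw [hp]; exact prs_nonneg fun v _ => hw0 v
    have hq0 : 0 ≤ q := by rw [hq]; exact Finset.sum_nonneg fun u _ => sq_nonneg _
    have h5 : (2 + 2 ^ m) * p ≤ D * p := mul_le_mul_of_nonneg_right (by rw [hD]; linarith) hp0
    have h6 : N * q ≤ D * q := mul_le_mul_of_nonneg_right (by rw [hD]; nlinarith) hq0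
    have hD0 : 0 ≤ D := by rw [hD]; nlinarith
    have h7 : D * (p + q) ≤ D * P := mul_le_mul_of_nonneg_left h2 hD0
    have h8 : 1 + 2 * C₀ ^ 2 ≤ D := by rw [hD]; linarith
    linarith
  · intro k hk
    have h1 := hmain k hk
    rw [Finset.sum_disjSum, hw, ht]
    simp only [Sum.elim_inl, Sum.elim_inr]
    have h2 : C₀ ≤ D := by rw [hD]; linarith
    have h3 : ∑ u : InfinitePlace K, a u * B2 (pr k (ti u)) =
        ∑ w : InfinitePlace K, (w.mult : ℝ) * max 0 (Real.log (w (6912 * A ^ 3 / dsc A B))) *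
        B2 (pr k (ti w)) := by rw [ha]
    rw [h3]
    linarith


theorem CONCM (h1 : ST_CONC) (h3 : ST_CONC3) : ST_CONCM := by
  intro K _ _ m hm
  rcases min_choice ((2 * (m : ℝ) + 6) / 3) (((m : ℝ) + 6) / 2) with h | h
  · rw [h]; exact h1 K m hm
  · rw [h]; exact h3 K m hm

/-- **CPTM** -/
theorem CPTM (hGL : ST_LGL) (hCH : ST_LCH) (hC : ST_CONCM) (hK : ST_CMK) (hDF : ST_KDF) :
    ST_CPTM := by
  intro K _ _ _ m hm
  obtain ⟨c₁, hc₁, h1⟩ := hC K m hm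
  obtain ⟨C, hC0, h2⟩ := hK K
  have hm0 : (0 : ℝ) < m := by exact_mod_cast hm
  obtain ⟨E, hE⟩ : ∃ E : ℝ, E = min ((2 * (m : ℝ) + 6) / 3) (((m : ℝ) + 6) / 2) := ⟨_, rfl⟩
  have hE0 : 0 < E := by rw [hE]; exact lt_min (by positivity) (by positivity)
  obtain ⟨c₂, hc₂d⟩ : ∃ c₂ : ℝ, c₂ = c₁ * C ^ (-E) := ⟨_, rfl⟩
  have hc₂ : 0 < c₂ := by rw [hc₂d]; positivity
  refine ⟨min (min c₁ c₂) (min (m * c₁ ^ (1 / (m : ℝ))) (m * c₂ ^ (1 / (m : ℝ)))), by positivity,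
    ?_⟩
  obtain ⟨c, hcd⟩ : ∃ c : ℝ, c = min (min c₁ c₂)
    (min (m * c₁ ^ (1 / (m : ℝ))) (m * c₂ ^ (1 / (m : ℝ)))) := ⟨_, rfl⟩
  rw [← hcd]
  have hcc₁ : c ≤ c₁ := by rw [hcd]; exact (min_le_left _ _).trans (min_le_left _ _)
  have hcc₂ : c ≤ c₂ := by rw [hcd]; exact (min_le_left _ _).trans (min_le_right _ _)
  have hcc₃ : c ≤ m * c₁ ^ (1 / (m : ℝ)) := by
    rw [hcd]; exact (min_le_right _ _).trans (min_le_left _ _)
  have hcc₄ : c ≤ m * c₂ ^ (1 / (m : ℝ)) := by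
    rw [hcd]; exact (min_le_right _ _).trans (min_le_right _ _)
  intro A B hD P hP
  obtain ⟨X, Y, hL, hX, R, hR, hcan⟩ := Pool.Agent.Helper47.LS5.REGS_gram hGL hCH hD P hP
  have hd : ∀ v : FinitePlace K, 0 ≤ dl (fun z : K => v z) A B :=
    fun v => ((hDF K A B hD).2.1 v).1
  have hH : 0 ≤ HK A B := by
    unfold HK LD
    exact add_nonneg (finsum_nonneg fun v => hd v) (Height.zero_le_logHeight₁ _)
  have hH1 : 0 < 1 + HK A B := by linarith
  have hpsd : R.PosSemidef := by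
    refine LREG_psd hR.1 fun k => ?_
    refine ge_of_tendsto' (hR.2 k) fun n => div_nonneg ?_ (by positivity)
    rcases (2 ^ n • ∑ i, k i • P i : (ECK A B).toAffine.Point) with _ | ⟨x, y, h⟩
    · exact le_rfl
    · exact Height.zero_le_logHeight₁ _
  have hx : (fun i => X (Pi.single i 1)) = fun i => xco (P i) := funext hX
  rw [← hE]
  have hdet : ∀ T : Finset (FinitePlace K), c₁ * (1 + HK A B) ^ m *
      rho A B (fun i => xco (P i)) T ^ E ≤ R.det := by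
    intro T
    have h3 := h1 A B hD X Y R hL hR.1 hcan T
    rw [hx, ← hE] at h3
    exact h3
  have hmK : (0 : ℝ) < 1 + (mK A B : ℝ) := by positivity
  have hdet2 : c₂ * (1 + HK A B) ^ m * ((1 + (mK A B : ℝ))⁻¹) ^ E ≤ R.det := by
    obtain ⟨T, hT⟩ := h2 A B hD m (fun i => xco (P i))
    refine le_trans ?_ (hdet T)
    have h3 : (C * (1 + (mK A B : ℝ)))⁻¹ ≤ rho A B (fun i => xco (P i)) T := by
      rw [inv_le_iff_one_le_mul₀ (by positivity)]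
      linarith
    have h4 : ((C * (1 + (mK A B : ℝ)))⁻¹) ^ E ≤ rho A B (fun i => xco (P i)) T ^ E :=
      Real.rpow_le_rpow (by positivity) h3 hE0.le
    have h5 : ((C * (1 + (mK A B : ℝ)))⁻¹) ^ E = C ^ (-E) * ((1 + (mK A B : ℝ))⁻¹) ^ E := by
      rw [mul_inv, Real.mul_rpow (by positivity) (by positivity), Real.inv_rpow hC0.le,
        ← Real.rpow_neg hC0.le]
    calc c₂ * (1 + HK A B) ^ m * ((1 + (mK A B : ℝ))⁻¹) ^ E
        = c₁ * (1 + HK A B) ^ m * ((C * (1 + (mK A B : ℝ)))⁻¹) ^ E := by rw [h5, hc₂d]; ring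
      _ ≤ _ := mul_le_mul_of_nonneg_left h4 (by positivity)
  have hinv : ∀ s : ℝ, (1 + (mK A B : ℝ)) ^ (-s) = ((1 + (mK A B : ℝ))⁻¹) ^ s := by
    intro s
    rw [Real.rpow_neg hmK.le, Real.inv_rpow hmK.le]
  refine ⟨R, hR, fun T => ?_, ?_, ?_⟩
  · have hr := Pool.Agent.Helper27.LS5.rho_nonneg A B (fun i => xco (P i)) T hd
    refine ⟨?_, fun S hS => ?_⟩
    · refine le_trans ?_ (hdet T)
      refine mul_le_mul_of_nonneg_right ?_ (Real.rpow_nonneg hr _)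
      exact mul_le_mul_of_nonneg_right hcc₁ (by positivity)
    · refine le_trans ?_ (Pool.Agent.Helper27.LS5.CPTS_trace hm hR.1 hpsd hS hc₁.le hH1.le hr (hdet T))
      refine mul_le_mul_of_nonneg_right ?_ (Real.rpow_nonneg hr _)
      exact mul_le_mul_of_nonneg_right hcc₃ hH1.le
  · rw [hinv]
    refine le_trans ?_ hdet2
    refine mul_le_mul_of_nonneg_right ?_ (by positivity)
    exact mul_le_mul_of_nonneg_right hcc₂ (by positivity)
  · intro S hS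
    rw [hinv]
    refine le_trans ?_ (Pool.Agent.Helper27.LS5.CPTS_trace hm hR.1 hpsd hS hc₂.le hH1.le (by positivity) hdet2)
    refine mul_le_mul_of_nonneg_right ?_ (by positivity)
    exact mul_le_mul_of_nonneg_right hcc₄ hH1.le

end Pool.Agent.Helper54.LM3
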