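import Pool.Agent.Helper54.LM.FINAL
import Pool.Agent.Helper54.LM3.LFIN3

/-!
# Regulators with the third moment (MP_9a3c31_nt)
-/

set_option autoImplicit false

open Filter Topology NumberField

namespace Pool.Agent.Helper54.LM3

open Pool.Agent.Helper42.LS Pool.Agent.Helper42.LK Pool.Agent.Helper54.LM

/-- the lower bound with the second exponent -/
def ST_LREG3 : Prop := ∀ (K : Type) [Field K] [NumberField K] (m : ℕ), 1 ≤ m → ∃ c : ℝ, 0 < c ∧
  ∀ A B : K, dsc A B ≠ 0 → ∀ (X Y : (Fin m → ℤ) → K) (G : Matrix (Fin m) (Fin m) ℝ),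
  GLat (0 : K) A B X Y → G.IsSymm → (∀ k, k ≠ 0 → IsCanK (fun n : ℕ => X (n • k)) (qf G k)) →
  c * (1 + HK A B) ^ g3 m ≤ G.det

theorem LREG3 (hFIN : ST_LFIN3) (hMT : ST_LMT) (hBF : ST_LBF) (hSQ : ST_LSQ) (hSM : ST_KSM) :
    ST_LREG3 := by
  intro K _ _ m hm
  obtain ⟨C₀, hC₀, hM⟩ := hMT K m
  obtain ⟨c₁, W₀, hc₁, hW₀, hF⟩ := hFIN m hm C₀ hC₀
  obtain ⟨cB, hcB, hB⟩ := hBF m
  obtain ⟨cs, hcs, hS⟩ := hSM K (2 * (W₀ + C₀) + 4 * C₀ + 1)
  obtain ⟨H₀, hH₀⟩ : ∃ H₀, H₀ = 2 * (W₀ + C₀) + 4 * C₀ + 1 := ⟨_, rfl⟩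
  rw [← hH₀] at hS
  obtain ⟨cA, hcA⟩ : ∃ cA : ℝ, cA = min ((1 / 4 : ℝ) ^ g3 m) ((1 + C₀) ^ g3 m) := ⟨_, rfl⟩
  have hcA0 : 0 < cA := by
    rw [hcA]
    exact lt_min (Real.rpow_pos_of_pos (by norm_num) _) (Real.rpow_pos_of_pos (by linarith) _)
  obtain ⟨cD, hcD⟩ : ∃ cD : ℝ, cD = (cB * (cs / 2) ^ ((m : ℝ) / 2)) ^ 2 := ⟨_, rfl⟩
  have hcD0 : 0 < cD := by
    rw [hcD]
    have : 0 < (cs / 2) ^ ((m : ℝ) / 2) := Real.rpow_pos_of_pos (by positivity) _
    positivity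
  have hH0 : 0 < H₀ := by rw [hH₀]; linarith
  obtain ⟨cE, hcE⟩ : ∃ cE : ℝ, cE = (1 + H₀) ^ (-|g3 m|) := ⟨_, rfl⟩
  have hcE0 : 0 < cE := by rw [hcE]; exact Real.rpow_pos_of_pos (by linarith) _
  refine ⟨min (c₁ * cA) (cD * cE), lt_min (by positivity) (by positivity), ?_⟩
  intro A B hAB X Y G hL hsymm hcan
  obtain ⟨H, hH1, hH2, hH3, V, Vf, w, t, N, hsum⟩ := hM A B hAB X Y (qf G) hL hcan
  have hHK0 : 0 ≤ HK A B := le_trans hH1 hH2
  have hHKg : 0 < (1 + HK A B) ^ g3 m := Real.rpow_pos_of_pos (by linarith) _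
  -- the form is nonnegative
  have hpos : ∀ k : Fin m → ℤ, 0 ≤ qf G k := by
    intro k
    by_cases hk : k = 0
    · subst hk
      unfold qf
      simp
    · have h1 := hcan k hk 1 le_rfl
      simp only [Nat.cast_one, one_pow, one_mul] at h1
      exact ge_of_tendsto' h1 fun n => div_nonneg (Height.zero_le_logHeight₁ _) (by positivity)
  have hpsd := LREG_psd hsymm hpos
  apply LREG_limit
  intro ε hε
  obtain ⟨G', hG'⟩ : ∃ G' : Matrix (Fin m) (Fin m) ℝ,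
    G' = G + ε • (1 : Matrix (Fin m) (Fin m) ℝ) := ⟨_, rfl⟩
  have hpd : G'.PosDef := by rw [hG']; exact LREG_pd hpsd hε
  have hle : ∀ k, qf G k ≤ qf G' k := fun k => by rw [hG']; exact LREG_qf_pert G hε.le k
  rw [← hG']
  rcases le_or_gt (HK A B) H₀ with hc | hc
  · -- small curves
    refine le_trans (mul_le_mul_of_nonneg_right (min_le_right _ _) hHKg.le) ?_
    have h1 : cD ≤ G'.det := by
      rw [hcD]
      refine LREG_small hcs hcB hB hpd fun k hk => ?_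
      exact le_trans (hS A B hAB hc _ _ _ (hSQ K m 0 A B X Y hL k hk) (hcan k hk)) (hle k)
    refine le_trans ?_ h1
    have h2 : cE * (1 + HK A B) ^ g3 m ≤ 1 := by
      have h3 : (1 + HK A B) ^ g3 m ≤ (1 + HK A B) ^ |g3 m| :=
        Real.rpow_le_rpow_of_exponent_le (by linarith) (le_abs_self _)
      have h4 : (1 + HK A B) ^ |g3 m| ≤ (1 + H₀) ^ |g3 m| :=
        Real.rpow_le_rpow (by linarith) (by linarith) (abs_nonneg _)
      have h5 : cE * (1 + H₀) ^ |g3 m| = 1 := by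
        rw [hcE, ← Real.rpow_add (by linarith)]
        simp
      calc cE * (1 + HK A B) ^ g3 m ≤ cE * (1 + H₀) ^ |g3 m| :=
            mul_le_mul_of_nonneg_left (le_trans h3 h4) hcE0.le
        _ = 1 := h5
    calc cD * cE * (1 + HK A B) ^ g3 m = cD * (cE * (1 + HK A B) ^ g3 m) := by ring
      _ ≤ cD * 1 := mul_le_mul_of_nonneg_left h2 hcD0.le
      _ = cD := mul_one _
  · -- large curves
    refine le_trans (mul_le_mul_of_nonneg_right (min_le_left _ _) hHKg.le) ?_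
    have habs := abs_le.mp hsum.total
    have hsum' : LSum C₀ H (qf G') V Vf w t N := by
      refine ⟨hsum.sub, hsum.nonneg, hsum.npos, hsum.int, hsum.nle, hsum.card, hsum.total, ?_⟩
      intro k hk
      have h1 := hsum.main k hk
      have h2 := hle k
      linarith
    have h1 := hF G' hpd H V Vf w t N hsum' (by linarith [habs.1])
    refine le_trans ?_ h1
    have h2 : cA * (1 + HK A B) ^ g3 m ≤ (∑ v ∈ V, w v) ^ g3 m := by
      rw [hcA]
      refine LREG_pow (by norm_num) (by linarith) ?_ ?_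
      · linarith [habs.1]
      · nlinarith [habs.2]
    calc c₁ * cA * (1 + HK A B) ^ g3 m = c₁ * (cA * (1 + HK A B) ^ g3 m) := by ring
      _ ≤ _ := mul_le_mul_of_nonneg_left h2 hc₁.le


theorem FINAL3 (hGL : ST_LGL) (hCH : ST_LCH) (hREG : ST_LREG) (hREG3 : ST_LREG3) (hKRM : ST_KRM)
    (hDF : ST_KDF) (K : Type) [Field K] [NumberField K] [DecidableEq K] (m : ℕ) (hm : 1 ≤ m) :
    (∀ A B : K, 4 * A ^ 3 + 27 * B ^ 2 ≠ 0 → ∀ P : Fin m → (ECK A B).toAffine.Point, Indep P →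
      ∃ G : Matrix (Fin m) (Fin m) ℝ, IsGram P G) ∧
    (∃ c : ℝ, 0 < c ∧ ∀ A B : K, 4 * A ^ 3 + 27 * B ^ 2 ≠ 0 →
      ∀ P : Fin m → (ECK A B).toAffine.Point, Indep P →
      ∀ G : Matrix (Fin m) (Fin m) ℝ, IsGram P G →
        c * (1 + HK A B) ^ (max (gam m) (g3 m)) ≤ G.det ∧
        ∀ S : Matrix (Fin m) (Fin m) ℤ, (S.map (fun z : ℤ => (z : ℝ))).PosDef →
          c * (1 + HK A B) ^ (max (gam m) (g3 m) / m) ≤ ∑ i, ∑ j, (S i j : ℝ) * G i j) ∧
    (3 ≤ m → ∀ R : ℝ, ∃ T : Set (K × K), T.Finite ∧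
      ∀ A B : K, 4 * A ^ 3 + 27 * B ^ 2 ≠ 0 → ∀ P : Fin m → (ECK A B).toAffine.Point, Indep P →
      ∀ G : Matrix (Fin m) (Fin m) ℝ, IsGram P G → G.det ≤ R →
        ∃ u : K, u ≠ 0 ∧ (u ^ 4 * A, u ^ 6 * B) ∈ T) := by
  obtain ⟨f1, -, f3⟩ := st_FINAL hGL hCH hREG hKRM hDF K m hm
  refine ⟨f1, ?_, f3⟩
  obtain ⟨c₁, hc₁, hcR₁⟩ := hREG K m hm
  obtain ⟨c₂, hc₂, hcR₂⟩ := hREG3 K m hm
  have hm0 : (0 : ℝ) < m := by exact_mod_cast hm
  obtain ⟨c, hcd⟩ : ∃ c : ℝ, c = min c₁ c₂ := ⟨_, rfl⟩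
  have hc : 0 < c := by rw [hcd]; exact lt_min hc₁ hc₂
  obtain ⟨g, hgd⟩ : ∃ g : ℝ, g = max (gam m) (g3 m) := ⟨_, rfl⟩
  have hHK : ∀ A B : K, 4 * A ^ 3 + 27 * B ^ 2 ≠ 0 → 0 ≤ HK A B := by
    intro A B hD
    unfold HK LD
    exact add_nonneg (finsum_nonneg fun v => ((hDF K A B hD).2.1 v).1)
      (Height.zero_le_logHeight₁ _)
  have key : ∀ A B : K, 4 * A ^ 3 + 27 * B ^ 2 ≠ 0 →
      ∀ P : Fin m → (ECK A B).toAffine.Point, Indep P →
      ∀ G : Matrix (Fin m) (Fin m) ℝ, IsGram P G →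
        c * (1 + HK A B) ^ g ≤ G.det ∧ G.PosSemidef := by
    intro A B hD P hP G hG
    obtain ⟨X, Y, hL, -, hcan⟩ := FINAL_gram hGL hCH hD P hP
    have hH1 : 0 ≤ 1 + HK A B := by linarith [hHK A B hD]
    refine ⟨?_, LREG_psd hG.1 fun k => ?_⟩
    · have h1 := hcR₁ A B hD X Y G hL hG.1 (hcan G hG)
      have h2 := hcR₂ A B hD X Y G hL hG.1 (hcan G hG)
      rw [hgd, hcd]
      rcases max_choice (gam m) (g3 m) with h | h
      · rw [h]
        exact (mul_le_mul_of_nonneg_right (min_le_left _ _) (Real.rpow_nonneg hH1 _)).trans h1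
      · rw [h]
        exact (mul_le_mul_of_nonneg_right (min_le_right _ _) (Real.rpow_nonneg hH1 _)).trans h2
    · refine ge_of_tendsto' (hG.2 k) fun n => div_nonneg ?_ (by positivity)
      rcases (2 ^ n • ∑ i, k i • P i : (ECK A B).toAffine.Point) with _ | ⟨x, y, h⟩
      · exact le_rfl
      · exact Height.zero_le_logHeight₁ _
  rw [← hgd]
  refine ⟨min c (m * c ^ (1 / (m : ℝ))), lt_min hc (by positivity), ?_⟩
  intro A B hD P hP G hG
  obtain ⟨h1, h2⟩ := key A B hD P hP G hG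
  have hH := hHK A B hD
  have hH1 : 0 < 1 + HK A B := by linarith
  refine ⟨?_, ?_⟩
  · refine le_trans (mul_le_mul_of_nonneg_right (min_le_left _ _)
      (Real.rpow_nonneg hH1.le _)) ?_
    exact h1
  · intro S hS
    refine le_trans (mul_le_mul_of_nonneg_right (min_le_right _ _)
      (Real.rpow_nonneg hH1.le _)) ?_
    have h3 := FINAL_trace hm hS.posSemidef h2
    have h4 : (S.map (fun z : ℤ => (z : ℝ)) * G).trace = ∑ i, ∑ j, (S i j : ℝ) * G i j := by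
      rw [Matrix.trace]
      refine Finset.sum_congr rfl fun i _ => ?_
      rw [Matrix.diag_apply, Matrix.mul_apply]
      refine Finset.sum_congr rfl fun j _ => ?_
      rw [Matrix.map_apply]
      have h5 := congrFun (congrFun hG.1 i) j
      rw [Matrix.transpose_apply] at h5
      rw [h5]
    rw [h4] at h3
    refine le_trans ?_ h3
    have h5 := FINAL_int hS
    have h6 : (c * (1 + HK A B) ^ g) ^ (1 / (m : ℝ)) ≤
        ((S.map (fun z : ℤ => (z : ℝ))).det * G.det) ^ (1 / (m : ℝ)) := by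
      refine Real.rpow_le_rpow (by positivity) ?_ (by positivity)
      have h7 : 0 ≤ G.det := h2.det_nonneg
      nlinarith
    have h8 : (c * (1 + HK A B) ^ g) ^ (1 / (m : ℝ)) = c ^ (1 / (m : ℝ)) *
        (1 + HK A B) ^ (g / m) := by
      rw [Real.mul_rpow hc.le (Real.rpow_nonneg hH1.le _), ← Real.rpow_mul hH1.le]
      congr 2
      ring
    calc (m : ℝ) * c ^ (1 / (m : ℝ)) * (1 + HK A B) ^ (g / m)
        = m * (c * (1 + HK A B) ^ g) ^ (1 / (m : ℝ)) := by rw [h8]; ring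
      _ ≤ _ := mul_le_mul_of_nonneg_left h6 hm0.le

end Pool.Agent.Helper54.LM3
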