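import Pool.Agent.Helper54.LM.All
import Pool.Agent.Helper54.LM3.LREG3

/-!
# Regulators of elliptic curves, third moment: assembly (MP_9a3c31_nt)
-/

set_option autoImplicit false

open Filter Topology NumberField

namespace Pool.Agent.Helper54.LM3

open Pool.Agent.Helper42.LS Pool.Agent.Helper42.LK Pool.Agent.Helper54.LM

theorem all_FIN3 : ST_LFIN3 := LFIN3 (st_LSG st_LBC) LSR3 lmall_BF

theorem all_REG3 : ST_LREG3 := LREG3 all_FIN3 lmall_MT lmall_BF st_LSQ kall_SM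

/-- the theorem on regulators -/
theorem all3 (K : Type) [Field K] [NumberField K] [DecidableEq K] (m : ℕ) (hm : 1 ≤ m) :
    (∀ A B : K, 4 * A ^ 3 + 27 * B ^ 2 ≠ 0 → ∀ P : Fin m → (ECK A B).toAffine.Point, Indep P →
      ∃ G : Matrix (Fin m) (Fin m) ℝ, IsGram P G) ∧
    (∃ c : ℝ, 0 < c ∧ ∀ A B : K, 4 * A ^ 3 + 27 * B ^ 2 ≠ 0 →
      ∀ P : Fin m → (ECK A B).toAffine.Point, Indep P →
      ∀ G : Matrix (Fin m) (Fin m) ℝ, IsGram P G →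
        c * (1 + HK A B) ^ (max (gam m) (g3 m)) ≤ G.det ∧
        ∀ S : Matrix (Fin m) (Fin m) ℤ, (S.map (fun z : ℤ => (z : ℝ))).PosDef →
          c * (1 + HK A B) ^ (max (gam m) (g3 m) / m) ≤ ∑ i, ∑ j, (S i j : ℝ) * G i j) ∧
    (3 ≤ m → ∀ R : ℝ, ∃ T : Set (K × K), T.Finite ∧
      ∀ A B : K, 4 * A ^ 3 + 27 * B ^ 2 ≠ 0 → ∀ P : Fin m → (ECK A B).toAffine.Point, Indep P →
      ∀ G : Matrix (Fin m) (Fin m) ℝ, IsGram P G → G.det ≤ R →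
        ∃ u : K, u ≠ 0 ∧ (u ^ 4 * A, u ^ 6 * B) ∈ T) :=
  FINAL3 st_LGL lmall_CH lmall_REG all_REG3 kall_RM kall_DF K m hm

end Pool.Agent.Helper54.LM3
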